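import Pool.Agent.Q266.VG.Stm

set_option autoImplicit false

namespace Pool.Agent.Q210.VG

open Pool.Agent.Q266.VG
open scoped commutatorElement

theorem lawev : S_UNI → S_KSIX → S_LAWEV := by
  intro hU hK a b ha hb A B hA hB w hw φ
  set θ : F2 →* (Mat 6)ˣ := FreeGroup.lift ![A, B] with hθ
  have hlin : ∀ y : F2, ∃ n m : ZMod 7, IsN 6 2 ((θ y : Mat 6) - 1 - n • a - m • b) := by
    refine hU.2.2.2 (Fin 2) 6 a b θ ha hb ?_
    intro k
    fin_cases k
    · refine ⟨1, 0, ?_⟩
      have : θ (FreeGroup.of 0) = A := by simp [hθ]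
      simp only [Fin.zero_eta]
      rw [this, hA, one_smul, zero_smul]
      have e : (1 + a - 1 - a - 0 : Mat 6) = 0 := by abel
      rw [e]
      exact IsN.zero 6 2
    · refine ⟨0, 1, ?_⟩
      have : θ (FreeGroup.of 1) = B := by simp [hθ]
      simp only [Fin.mk_one]
      rw [this, hB, one_smul, zero_smul]
      have e : (1 + b - 1 - 0 - b : Mat 6) = 0 := by abel
      rw [e]
      exact IsN.zero 6 2
  have hker : verbal V F2 ≤ θ.ker := by
    unfold verbal
    rw [Subgroup.closure_le]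
    rintro g ⟨v, hv, φ', rfl⟩
    have h1 := (hK a b ha hb (θ.comp φ') (fun w => hlin (φ' w))).1 v hv
    exact h1
  exact hker (hw φ)

end Pool.Agent.Q210.VG
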