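import Pool.Agent.Q266.VG.Stm

set_option autoImplicit false

namespace Pool.Agent.Q210.VG

open Pool.Agent.Q266.VG
open scoped commutatorElement

/-- first column is the first unit vector -/
def Col (g : (Mat 6)ˣ) : Prop := ∀ i : Fin 6, (g : Mat 6) i 0 = if i = 0 then 1 else 0

lemma Col.inv {g : (Mat 6)ˣ} (h : Col g) : Col g⁻¹ := by
  intro i
  have h1 : (((g⁻¹ : (Mat 6)ˣ) : Mat 6) * (g : Mat 6)) i 0 = (1 : Mat 6) i 0 := by
    rw [← Units.val_mul, inv_mul_cancel, Units.val_one]
  rw [Matrix.mul_apply, Finset.sum_eq_single 0] at h1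
  · rw [h 0, if_pos rfl, mul_one] at h1
    rw [h1, Matrix.one_apply]
  · intro k _ hk
    rw [h k, if_neg hk, mul_zero]
  · intro h; exact absurd (Finset.mem_univ _) h

lemma Col.mul {g h : (Mat 6)ˣ} (hg : Col g) (hh : Col h) : Col (g * h) := by
  intro i
  rw [Units.val_mul, Matrix.mul_apply, Finset.sum_eq_single 0]
  · rw [hh 0, if_pos rfl, mul_one, hg i]
  · intro k _ hk
    rw [hh k, if_neg hk, mul_zero]
  · intro h; exact absurd (Finset.mem_univ _) h

/-- the rows other than the first agree -/
def Row (g h : (Mat 6)ˣ) : Prop := ∀ i j : Fin 6, i ≠ 0 → (g : Mat 6) i j = (h : Mat 6) i j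

lemma Row.mul {g h g' h' : (Mat 6)ˣ} (hg : Col g) (hh : Col h) (h1 : Row g h) (h2 : Row g' h') :
    Row (g * g') (h * h') := by
  intro i j hi
  rw [Units.val_mul, Units.val_mul, Matrix.mul_apply, Matrix.mul_apply]
  refine Finset.sum_congr rfl fun k _ => ?_
  by_cases hk : k = 0
  · subst hk
    rw [hg i, hh i, if_neg hi, zero_mul, zero_mul]
  · rw [h1 i k hi, h2 k j hk]

theorem met : S_MET := by
  intro A B hA hB
  set θ : F2 →* (Mat 6)ˣ := FreeGroup.lift ![A, B] with hθ
  set σ : F2 →* (Mat 6)ˣ := FreeGroup.lift ![A, 1] with hσ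
  have θ0 : θ (FreeGroup.of 0) = A := by simp [hθ]
  have θ1 : θ (FreeGroup.of 1) = B := by simp [hθ]
  have σ0 : σ (FreeGroup.of 0) = A := by simp [hσ]
  have σ1 : σ (FreeGroup.of 1) = 1 := by simp [hσ]
  have cA : Col A := by
    intro i
    rw [hA, Matrix.add_apply, Matrix.one_apply]
    have : aA i 0 = 0 := by
      unfold aA
      rw [if_neg]
      rintro ⟨-, h⟩
      simp at h
    rw [this, add_zero]
  have cB : Col B := by
    intro i
    rw [hB, Matrix.add_apply, Matrix.one_apply]
    have : bA i 0 = 0 := by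
      unfold bA
      rw [if_neg]
      rintro ⟨-, h⟩
      simp at h
    rw [this, add_zero]
  have c1 : Col 1 := by
    intro i
    rw [Units.val_one, Matrix.one_apply]
  have rB : Row B 1 := by
    intro i j hi
    rw [hB, Units.val_one, Matrix.add_apply]
    have : bA i j = 0 := by
      unfold bA
      rw [if_neg]
      rintro ⟨h, -⟩
      exact hi (Fin.ext h)
    rw [this, add_zero]
  have rB' : Row B⁻¹ 1 := by
    intro i j hi
    have h1 : ((B : Mat 6) * ((B⁻¹ : (Mat 6)ˣ) : Mat 6)) i j = (1 : Mat 6) i j := by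
      rw [← Units.val_mul, mul_inv_cancel, Units.val_one]
    rw [Matrix.mul_apply, Finset.sum_eq_single i] at h1
    · rw [rB i i hi, Units.val_one, Matrix.one_apply_eq, one_mul] at h1
      rw [h1, Units.val_one]
    · intro k _ hk
      rw [rB i k hi, Units.val_one, Matrix.one_apply_ne (Ne.symm hk), zero_mul]
    · intro h; exact absurd (Finset.mem_univ _) h
  have key : ∀ y : F2, Col (θ y) ∧ Col (σ y) ∧ Row (θ y) (σ y) := by
    intro y
    induction y using FreeGroup.induction_on with
    | C1 => rw [map_one, map_one]; exact ⟨c1, c1, fun _ _ _ => rfl⟩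
    | of x =>
      fin_cases x
      · simp only [Fin.zero_eta]
        rw [θ0, σ0]
        exact ⟨cA, cA, fun _ _ _ => rfl⟩
      · simp only [Fin.mk_one]
        rw [θ1, σ1]
        exact ⟨cB, c1, rB⟩
    | inv_of x _ =>
      fin_cases x
      · simp only [Fin.zero_eta]
        rw [map_inv, map_inv, θ0, σ0]
        exact ⟨cA.inv, cA.inv, fun _ _ _ => rfl⟩
      · simp only [Fin.mk_one]
        rw [map_inv, map_inv, θ1, σ1, inv_one]
        exact ⟨cB.inv, c1, rB'⟩
    | mul x y hx hy =>
      rw [map_mul, map_mul]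
      exact ⟨hx.1.mul hy.1, hx.2.1.mul hy.2.1, Row.mul hx.1 hx.2.1 hx.2.2 hy.2.2⟩
  -- the image of `σ` is commutative
  have hcomA : ∀ y : F2, Commute A (σ y) := by
    intro y
    induction y using FreeGroup.induction_on with
    | C1 => rw [map_one]; exact Commute.one_right A
    | of x =>
      fin_cases x
      · simp only [Fin.zero_eta]
        rw [σ0]
      · simp only [Fin.mk_one]
        rw [σ1]; exact Commute.one_right A
    | inv_of x hx => rw [map_inv]; exact hx.inv_right
    | mul x y hx hy => rw [map_mul]; exact hx.mul_right hy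
  have hcom : ∀ x y : F2, Commute (σ x) (σ y) := by
    intro x y
    induction x using FreeGroup.induction_on with
    | C1 => rw [map_one]; exact Commute.one_left _
    | of x =>
      fin_cases x
      · simp only [Fin.zero_eta]
        rw [σ0]; exact hcomA y
      · simp only [Fin.mk_one]
        rw [σ1]; exact Commute.one_left _
    | inv_of x hx => rw [map_inv]; exact hx.inv_left
    | mul x z hx hz => rw [map_mul]; exact hx.mul_left hz
  have hσker : derivedSeries F2 1 ≤ σ.ker := by
    rw [derivedSeries_succ, derivedSeries_zero, Subgroup.commutator_le]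
    intro x _ y _
    rw [MonoidHom.mem_ker, map_commutatorElement, commutatorElement_eq_one_iff_commute]
    exact hcom x y
  have hM : ∀ y ∈ derivedSeries F2 1, Col (θ y) ∧ Row (θ y) 1 := by
    intro y hy
    obtain ⟨h1, -, h3⟩ := key y
    have : σ y = 1 := hσker hy
    rw [this] at h3
    exact ⟨h1, h3⟩
  have hD : D2 F2 ≤ θ.ker := by
    have e : D2 F2 = ⁅derivedSeries F2 1, derivedSeries F2 1⁆ := derivedSeries_succ F2 1
    rw [e, Subgroup.commutator_le]
    intro x hx y hy
    rw [MonoidHom.mem_ker, map_commutatorElement, commutatorElement_eq_one_iff_commute]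
    obtain ⟨cx, rx⟩ := hM x hx
    obtain ⟨cy, ry⟩ := hM y hy
    have hprod : ∀ g h : (Mat 6)ˣ, Col g → Row g 1 → Col h → Row h 1 → ∀ i j : Fin 6,
        ((g * h : (Mat 6)ˣ) : Mat 6) i j =
          if i = 0 then (if j = 0 then 1 else (g : Mat 6) 0 j + (h : Mat 6) 0 j)
            else (1 : Mat 6) i j := by
      intro g h cg rg ch rh i j
      by_cases hi : i = 0
      · subst hi
        rw [if_pos rfl]
        by_cases hj : j = 0
        · subst hj
          rw [if_pos rfl, (cg.mul ch) 0, if_pos rfl]
        · rw [if_neg hj, Units.val_mul, Matrix.mul_apply]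
          rw [← Finset.add_sum_erase _ _ (Finset.mem_univ (0 : Fin 6)), cg 0, if_pos rfl, one_mul,
            add_comm]
          congr 1
          rw [Finset.sum_eq_single j]
          · rw [rh j j hj, Units.val_one, Matrix.one_apply_eq, mul_one]
          · intro k hk hkj
            rw [rh k j (Finset.ne_of_mem_erase hk), Units.val_one, Matrix.one_apply_ne hkj,
              mul_zero]
          · intro h
            exact absurd (Finset.mem_erase.2 ⟨hj, Finset.mem_univ _⟩) h
      · rw [if_neg hi]
        have := Row.mul (g := g) (h := 1) (g' := h) (h' := 1) cg c1 rg rh i j hi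
        rw [this, mul_one, Units.val_one]
    apply Units.ext
    ext i j
    rw [hprod _ _ cx rx cy ry, hprod _ _ cy ry cx rx, add_comm]
  intro y hy
  exact hD hy

end Pool.Agent.Q210.VG
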